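import Mathlib

/-!
# MP_490135_co: graph-side definitions (helper81)
-/

namespace P490135

open SimpleGraph Finset

/-- `G` has no path with more than `2ℓ` vertices. -/
def Short {V : Type*} (G : SimpleGraph V) (ℓ : ℕ) : Prop :=
  ∀ l : List V, l.Nodup → l.IsChain G.Adj → l.length ≤ 2 * ℓ

/-- A directed path on `2ℓ` vertices `(q 0).1, (q 0).2, (q 1).1, (q 1).2, …`, cut into `ℓ`
consecutive ordered pairs. -/
structure IsMP {V : Type*} (G : SimpleGraph V) (ℓ : ℕ) (q : Fin ℓ → V × V) : Prop where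
  adj : ∀ i, G.Adj (q i).1 (q i).2
  adj' : ∀ i j : Fin ℓ, (j : ℕ) = i + 1 → G.Adj (q i).2 (q j).1
  inj1 : ∀ i j, (q i).1 = (q j).1 → i = j
  inj2 : ∀ i j, (q i).2 = (q j).2 → i = j
  ne12 : ∀ i j, (q i).1 ≠ (q j).2

/-- The graph `G_{n,k,m}` of the problem (`k = 2ℓ+1` or, more generally, `⌊k/2⌋ = ℓ`) on the vertex
set `Fin n`: the vertices `0, …, ℓ-1` form a clique with distinguished vertex `0`; the `m` vertices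
`ℓ, …, ℓ+m-1` are adjacent only to `0`; the remaining vertices are adjacent exactly to
`1, …, ℓ-1`. -/
def Gnkm (n ℓ m : ℕ) : SimpleGraph (Fin n) where
  Adj i j := i ≠ j ∧
    (((i : ℕ) < ℓ ∧ (j : ℕ) < ℓ) ∨
     ((i : ℕ) = 0 ∧ ℓ ≤ (j : ℕ) ∧ (j : ℕ) < ℓ + m) ∨
     ((j : ℕ) = 0 ∧ ℓ ≤ (i : ℕ) ∧ (i : ℕ) < ℓ + m) ∨
     (1 ≤ (i : ℕ) ∧ (i : ℕ) < ℓ ∧ ℓ + m ≤ (j : ℕ)) ∨
     (1 ≤ (j : ℕ) ∧ (j : ℕ) < ℓ ∧ ℓ + m ≤ (i : ℕ)))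
  symm := ⟨by
    rintro i j ⟨h, h'⟩
    refine ⟨h.symm, ?_⟩
    omega⟩
  loopless := ⟨by
    rintro i ⟨h, _⟩
    exact h rfl⟩

/-- The number `(ℓ-1)! · max_m m (n-ℓ-m)(n-ℓ-m-1)⋯(n-2ℓ-m+2)`. -/
def Fn (ℓ n : ℕ) : ℕ :=
  (ℓ - 1).factorial *
    (Finset.range (n - ℓ + 1)).sup (fun m => m * (n - ℓ - m).descFactorial (ℓ - 1))

end P490135
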