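import Pool.Agent.Work.MP_490135_co.Bd.B01

/-!
# MP_490135_co, item G: the bound for paths of type M (helper25)
-/

namespace P490135

namespace MB

open Finset Nat

section order

variable {α β : Type*} {N : ℕ} {R : Finset α} {W : Finset β} {A : β → α → Prop}
  {D : Finset α} {Γ Λ : α → α → Prop}

/-- an order of the highs in a path of type M, as a function on `ℕ` -/
structure Ord (N : ℕ) (R D : Finset α) (Γ Λ : α → α → Prop) (k : ℕ) (s : ℕ → α) : Prop where
  inj : ∀ i j, i < N → j < N → s i = s j → i = j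
  mem : ∀ i, i < N → s i ∈ R
  k1 : 1 ≤ k
  k2 : k < N
  gam : ∀ i, i + 1 < N → i + 1 ≠ k → Γ (s i) (s (i + 1))
  lam : Λ (s (k - 1)) (s k)
  dl : s (k - 1) ∈ D
  dr : s k ∈ D

lemma F1' (H : HypI N R W A D Γ Λ) (hN : 0 < N) {s : ℕ → α}
    (inj : ∀ i j, i < N → j < N → s i = s j → i = j) (mem : ∀ i, i < N → s i ∈ R)
    (P : ℕ → ℕ) (hP : ∀ i, i < N → P i < N)
    (hPi : ∀ i j, i < N → j < N → P i = P j → i = j)
    (hch : ∀ i, i + 1 < N → Γ (s (P i)) (s (P (i + 1))))
    (h0 : s (P 0) ∈ D) (h1 : s (P (N - 1)) ∈ D) : False := by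
  refine H.F1 (fun i : Fin N => s (P i)) ?_ ?_ ?_ ⟨?_, ?_⟩
  · intro i j h
    exact Fin.ext (hPi _ _ i.2 j.2 (inj _ _ (hP _ i.2) (hP _ j.2) h))
  · intro i
    exact mem _ (hP _ i.2)
  · intro i j hij
    show Γ (s (P i)) (s (P j))
    rw [hij]
    exact hch i (by have := j.2; omega)
  · intro i hi
    show s (P i) ∈ D
    rw [hi]; exact h0
  · intro i hi
    show s (P i) ∈ D
    rw [show (i : ℕ) = N - 1 by omega]; exact h1

lemma F2' (H : HypI N R W A D Γ Λ) {s : ℕ → α}
    (inj : ∀ i j, i < N → j < N → s i = s j → i = j) (mem : ∀ i, i < N → s i ∈ R)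
    (P : ℕ → ℕ) (k : ℕ) (hk1 : 1 ≤ k) (hk2 : k < N) (hP : ∀ i, i < N → P i < N)
    (hPi : ∀ i j, i < N → j < N → P i = P j → i = j)
    (hch : ∀ i, i + 1 < N → i + 1 ≠ k → Γ (s (P i)) (s (P (i + 1))))
    (hla : Λ (s (P (k - 1))) (s (P k)))
    (h0 : s (P 0) ∈ D) : False := by
  refine H.F2 (fun i : Fin N => s (P i)) k ?_ ?_ hk1 hk2 ?_ ?_ ?_
  · intro i j h
    exact Fin.ext (hPi _ _ i.2 j.2 (inj _ _ (hP _ i.2) (hP _ j.2) h))
  · intro i
    exact mem _ (hP _ i.2)
  · intro i j hij hne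
    show Γ (s (P i)) (s (P j))
    rw [hij]
    exact hch i (by have := j.2; omega) (by omega)
  · intro i j hij hk
    show Λ (s (P i)) (s (P j))
    rw [hk, show (i : ℕ) = k - 1 by omega]
    exact hla
  · intro i hi
    show s (P i) ∈ D
    rw [hi]; exact h0

variable {k : ℕ} {s : ℕ → α}

lemma Ord.st (O : Ord N R D Γ Λ k s) (H : HypI N R W A D Γ Λ) (a b : ℕ) (ha : a < N) (hb : b < N)
    (h : (b = a + 1 ∧ b ≠ k) ∨ (a = b + 1 ∧ a ≠ k)) : Γ (s a) (s b) := by
  rcases h with ⟨h, h'⟩ | ⟨h, h'⟩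
  · rw [h]; exact O.gam a (by omega) (by omega)
  · rw [h]; exact H.symm _ _ (O.gam b (by omega) (by omega))

/-- (g1) the first high is not in `D` -/
lemma Ord.first (O : Ord N R D Γ Λ k s) (H : HypI N R W A D Γ Λ) : s 0 ∉ D := by
  intro h
  exact F2' H O.inj O.mem id k O.k1 O.k2 (fun i hi => hi) (fun i j _ _ h => h)
    (fun i h1 h2 => O.gam i h1 h2) O.lam h

/-- (g1) the last high is not in `D` -/
lemma Ord.last (O : Ord N R D Γ Λ k s) (H : HypI N R W A D Γ Λ) : s (N - 1) ∉ D := by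
  intro h
  have k1 := O.k1
  have k2 := O.k2
  refine F2' H O.inj O.mem (fun i => N - 1 - i) (N - k) (by omega) (by omega)
    (fun i hi => by omega) (fun i j _ _ h => by omega)
    (fun i h1 h2 => O.st H _ _ (by omega) (by omega) (by omega)) ?_ (by simpa using h)
  rw [show N - 1 - (N - k - 1) = k by omega, show N - 1 - (N - k) = k - 1 by omega]
  exact H.lsymm _ _ O.lam

lemma Ord.two_le (O : Ord N R D Γ Λ k s) (H : HypI N R W A D Γ Λ) : 2 ≤ k := by
  have k1 := O.k1
  by_contra h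
  have : k = 1 := by omega
  subst this
  exact O.first H O.dl

lemma Ord.le_two (O : Ord N R D Γ Λ k s) (H : HypI N R W A D Γ Λ) : k + 2 ≤ N := by
  have k2 := O.k2
  by_contra h
  have h1 : k = N - 1 := by omega
  have h2 := O.dr
  rw [h1] at h2
  exact O.last H h2

/-- (g2) the closing gap is not in `Γ` -/
lemma Ord.closing (O : Ord N R D Γ Λ k s) (H : HypI N R W A D Γ Λ) : ¬ Γ (s (N - 1)) (s 0) := by
  intro h
  have k1 := O.two_le H
  have k2 := O.le_two H
  have st : ∀ a b, a < N → b < N → ((b = a + 1 ∧ b ≠ k) ∨ (a = b + 1 ∧ a ≠ k) ∨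
      (a = N - 1 ∧ b = 0)) → Γ (s a) (s b) := by
    rintro a b ha hb (h' | h' | ⟨rfl, rfl⟩)
    · exact O.st H a b ha hb (Or.inl h')
    · exact O.st H a b ha hb (Or.inr h')
    · exact h
  refine F1' H (by omega) O.inj O.mem (fun i => if i < N - k then k + i else i - (N - k))
    (fun i hi => by split_ifs <;> omega)
    (fun i j hi hj h => by split_ifs at h <;> omega)
    (fun i hi => st _ _ (by split_ifs <;> omega) (by split_ifs <;> omega)
      (by split_ifs <;> omega)) ?_ ?_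
  · rw [if_pos (by omega)]; exact O.dr
  · rw [if_neg (by omega), show N - 1 - (N - k) = k - 1 by omega]; exact O.dl

lemma Ord.closing' (O : Ord N R D Γ Λ k s) (H : HypI N R W A D Γ Λ) : ¬ Γ (s 0) (s (N - 1)) :=
  fun h => O.closing H (H.symm _ _ h)

/-- no crossing pair -/
lemma Ord.cross (O : Ord N R D Γ Λ k s) (H : HypI N R W A D Γ Λ) {j : ℕ} (hj : j + 1 < N)
    (hjk : j + 1 ≠ k) (h1 : Γ (s 0) (s (j + 1))) (h2 : Γ (s (N - 1)) (s j)) : False := by
  have k1 := O.two_le H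
  have k2 := O.le_two H
  have st : ∀ a b, a < N → b < N → ((b = a + 1 ∧ b ≠ k) ∨ (a = b + 1 ∧ a ≠ k) ∨
      (a = 0 ∧ b = j + 1) ∨ (a = j + 1 ∧ b = 0) ∨ (a = N - 1 ∧ b = j) ∨ (a = j ∧ b = N - 1)) →
      Γ (s a) (s b) := by
    rintro a b ha hb (h' | h' | ⟨rfl, rfl⟩ | ⟨rfl, rfl⟩ | ⟨rfl, rfl⟩ | ⟨rfl, rfl⟩)
    · exact O.st H a b ha hb (Or.inl h')
    · exact O.st H a b ha hb (Or.inr h')
    · exact h1
    · exact H.symm _ _ h1
    · exact h2
    · exact H.symm _ _ h2
  rcases Nat.lt_or_ge j k with h | h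
  · -- `j + 2 ≤ k`
    refine F1' H (by omega) O.inj O.mem
      (fun i => if i < k - 1 - j then k - 1 - i else if i < k then i - (k - 1 - j)
        else N - 1 - (i - k))
      (fun i hi => by split_ifs <;> omega)
      (fun i j hi hj h => by split_ifs at h <;> omega)
      (fun i hi => st _ _ (by split_ifs <;> omega) (by split_ifs <;> omega)
        (by split_ifs <;> omega)) ?_ ?_
    · rw [if_pos (by omega)]; exact O.dl
    · rw [if_neg (by omega), if_neg (by omega), show N - 1 - (N - 1 - k) = k by omega]; exact O.dr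
  · refine F1' H (by omega) O.inj O.mem
      (fun i => if i < j - k + 1 then k + i else if i < N - k then N - 1 - (i - (j - k + 1))
        else i - (N - k))
      (fun i hi => by split_ifs <;> omega)
      (fun i j hi hj h => by split_ifs at h <;> omega)
      (fun i hi => st _ _ (by split_ifs <;> omega) (by split_ifs <;> omega)
        (by split_ifs <;> omega)) ?_ ?_
    · rw [if_pos (by omega)]; exact O.dr
    · rw [if_neg (by omega), if_neg (by omega), show N - 1 - (N - k) = k - 1 by omega]; exact O.dl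

/-- no jump from the first high -/
lemma Ord.jump1 (O : Ord N R D Γ Λ k s) (H : HypI N R W A D Γ Λ) {j : ℕ} (hj : j + 1 < N)
    (hjk : j + 1 ≠ k) (h1 : Γ (s 0) (s (j + 1))) (h2 : s j ∈ D) : False := by
  have k1 := O.two_le H
  have k2 := O.le_two H
  have st : ∀ a b, a < N → b < N → ((b = a + 1 ∧ b ≠ k) ∨ (a = b + 1 ∧ a ≠ k) ∨
      (a = 0 ∧ b = j + 1) ∨ (a = j + 1 ∧ b = 0)) →
      Γ (s a) (s b) := by
    rintro a b ha hb (h' | h' | ⟨rfl, rfl⟩ | ⟨rfl, rfl⟩)
    · exact O.st H a b ha hb (Or.inl h')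
    · exact O.st H a b ha hb (Or.inr h')
    · exact h1
    · exact H.symm _ _ h1
  rcases Nat.lt_or_ge j k with h | h
  · refine F2' H O.inj O.mem (fun i => if i ≤ j then j - i else i) k (by omega) (by omega)
      (fun i hi => by split_ifs <;> omega)
      (fun i j hi hj h => by split_ifs at h <;> omega)
      (fun i hi hik => st _ _ (by split_ifs <;> omega) (by split_ifs <;> omega)
        (by split_ifs <;> omega)) ?_ ?_
    · rw [if_neg (by omega), if_neg (by omega)]; exact O.lam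
    · rw [if_pos (by omega)]; exact h2
  · refine F2' H O.inj O.mem (fun i => if i ≤ j then j - i else i) (j - k + 1) (by omega) (by omega)
      (fun i hi => by split_ifs <;> omega)
      (fun i j hi hj h => by split_ifs at h <;> omega)
      (fun i hi hik => st _ _ (by split_ifs <;> omega) (by split_ifs <;> omega)
        (by split_ifs <;> omega)) ?_ ?_
    · rw [if_pos (by omega), if_pos (by omega), show j - (j - k + 1 - 1) = k by omega,
        show j - (j - k + 1) = k - 1 by omega]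
      exact H.lsymm _ _ O.lam
    · rw [if_pos (by omega)]; exact h2

/-- no jump from the last high -/
lemma Ord.jump2 (O : Ord N R D Γ Λ k s) (H : HypI N R W A D Γ Λ) {j : ℕ} (hj : j + 1 < N)
    (hjk : j + 1 ≠ k) (h1 : Γ (s (N - 1)) (s j)) (h2 : s (j + 1) ∈ D) : False := by
  have k1 := O.two_le H
  have k2 := O.le_two H
  have st : ∀ a b, a < N → b < N → ((b = a + 1 ∧ b ≠ k) ∨ (a = b + 1 ∧ a ≠ k) ∨
      (a = N - 1 ∧ b = j) ∨ (a = j ∧ b = N - 1)) →
      Γ (s a) (s b) := by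
    rintro a b ha hb (h' | h' | ⟨rfl, rfl⟩ | ⟨rfl, rfl⟩)
    · exact O.st H a b ha hb (Or.inl h')
    · exact O.st H a b ha hb (Or.inr h')
    · exact h1
    · exact H.symm _ _ h1
  rcases Nat.lt_or_ge j k with h | h
  · refine F2' H O.inj O.mem (fun i => if i < N - 1 - j then j + 1 + i else N - 1 - i) (k - 1 - j)
      (by omega) (by omega)
      (fun i hi => by split_ifs <;> omega)
      (fun i j hi hj h => by split_ifs at h <;> omega)
      (fun i hi hik => st _ _ (by split_ifs <;> omega) (by split_ifs <;> omega)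
        (by split_ifs <;> omega)) ?_ ?_
    · rw [if_pos (by omega), if_pos (by omega), show j + 1 + (k - 1 - j - 1) = k - 1 by omega,
        show j + 1 + (k - 1 - j) = k by omega]
      exact O.lam
    · rw [if_pos (by omega)]; exact h2
  · refine F2' H O.inj O.mem (fun i => if i < N - 1 - j then j + 1 + i else N - 1 - i) (N - k)
      (by omega) (by omega)
      (fun i hi => by split_ifs <;> omega)
      (fun i j hi hj h => by split_ifs at h <;> omega)
      (fun i hi hik => st _ _ (by split_ifs <;> omega) (by split_ifs <;> omega)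
        (by split_ifs <;> omega)) ?_ ?_
    · rw [if_neg (by omega), if_neg (by omega), show N - 1 - (N - k - 1) = k by omega,
        show N - 1 - (N - k) = k - 1 by omega]
      exact H.lsymm _ _ O.lam
    · rw [if_pos (by omega)]; exact h2

end order

section count

variable {α β : Type*} {N : ℕ} {R : Finset α} {W : Finset β} {A : β → α → Prop}
  {D : Finset α} {Γ Λ : α → α → Prop}

/-- extension of a function on `Fin N` to `ℕ` -/
def sx (hN : 0 < N) (σ : Fin N → α) (i : ℕ) : α := σ ⟨min i (N - 1), by omega⟩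

lemma sx_lt (hN : 0 < N) (σ : Fin N → α) {i : ℕ} (h : i < N) : sx hN σ i = σ ⟨i, h⟩ := by
  unfold sx
  congr 1
  exact Fin.ext (by simp; omega)

lemma ord_of_isM (H : HypI N R W A D Γ Λ) (hN : 0 < N) {r : β} {k : ℕ} {σ : Fin N → α}
    {τ : Fin N → β} (h : IsM N R W A D Λ r k σ τ) : Ord N R D Γ Λ k (sx hN σ) where
  inj := by
    intro i j hi hj e
    rw [sx_lt hN σ hi, sx_lt hN σ hj] at e
    exact congrArg Fin.val (h.σinj e)
  mem := by
    intro i hi
    rw [sx_lt hN σ hi]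
    exact h.σR _
  k1 := h.k1
  k2 := h.k2
  gam := by
    intro i hi hne
    rw [sx_lt hN σ (show i < N by omega), sx_lt hN σ hi]
    have hd : σ ⟨i, by omega⟩ ≠ σ ⟨i + 1, hi⟩ := by
      intro e
      have := congrArg Fin.val (h.σinj e)
      simp at this
    rcases Nat.lt_or_ge (i + 1) k with h' | h'
    · exact H.clique (τ ⟨i + 1, hi⟩) (h.τW _) _ (h.σR _) _ (h.σR _)
        (h.adj1 ⟨i, by omega⟩ ⟨i + 1, hi⟩ rfl h') (h.adj _) hd
    · exact H.clique (τ ⟨i, by omega⟩) (h.τW _) _ (h.σR _) _ (h.σR _) (h.adj _)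
        (h.adj2 ⟨i, by omega⟩ ⟨i + 1, hi⟩ rfl (show k ≤ i by omega)) hd
  lam := by
    have k1 := h.k1
    have k2 := h.k2
    rw [sx_lt hN σ (show k - 1 < N by omega), sx_lt hN σ k2]
    exact h.lam _ _ (show k = k - 1 + 1 by omega) rfl
  dl := by
    have k1 := h.k1
    have k2 := h.k2
    rw [sx_lt hN σ (show k - 1 < N by omega)]
    exact h.dl _ (show k - 1 + 1 = k by omega)
  dr := by
    have k2 := h.k2
    rw [sx_lt hN σ k2]
    exact h.dr _ rfl

/-- the highs of a slot -/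
def Hi (N : ℕ) (k : ℕ) (s : ℕ → α) (i : ℕ) (h : α) : Prop :=
  h = s i ∨ (1 ≤ i ∧ i < k ∧ h = s (i - 1)) ∨ (k ≤ i ∧ i + 1 < N ∧ h = s (i + 1))

lemma hiA (hN : 0 < N) {r : β} {k : ℕ} {σ : Fin N → α}
    {τ : Fin N → β} (h : IsM N R W A D Λ r k σ τ) (i : Fin N) {x : α}
    (hx : Hi N k (sx hN σ) i x) : A (τ i) x ∧ x ∈ R := by
  have hi := i.2
  rcases hx with rfl | ⟨h1, h2, rfl⟩ | ⟨h1, h2, rfl⟩
  · rw [sx_lt hN σ hi]
    exact ⟨h.adj i, h.σR _⟩
  · rw [sx_lt hN σ (show (i : ℕ) - 1 < N by omega)]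
    exact ⟨h.adj1 ⟨(i : ℕ) - 1, by omega⟩ i (show (i : ℕ) = (i : ℕ) - 1 + 1 by omega) h2, h.σR _⟩
  · rw [sx_lt hN σ h2]
    exact ⟨h.adj2 i ⟨(i : ℕ) + 1, h2⟩ rfl h1, h.σR _⟩

lemma slot_cases {k : ℕ} {s : ℕ → α} {i : ℕ} (hi : i < N) :
    i = 0 ∨ i = N - 1 ∨ ∃ j, j + 1 < N ∧ j + 1 ≠ k ∧ Hi N k s i (s j) ∧ Hi N k s i (s (j + 1)) := by
  rcases Nat.eq_zero_or_pos i with h0 | h0
  · exact Or.inl h0
  rcases eq_or_ne i (N - 1) with h1 | h1
  · exact Or.inr (Or.inl h1)
  right; right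
  rcases Nat.lt_or_ge i k with h | h
  · refine ⟨i - 1, by omega, by omega, Or.inr (Or.inl ⟨h0, h, rfl⟩), Or.inl ?_⟩
    rw [show i - 1 + 1 = i by omega]
  · exact ⟨i, by omega, by omega, Or.inl rfl, Or.inr (Or.inr ⟨h, by omega, rfl⟩)⟩

lemma fac1 (a b : ℕ) (ha : 2 ≤ a) (hb : 2 ≤ b) : a ! * b ! ≤ 2 * (a + b - 2)! := by
  induction b, hb using Nat.le_induction with
  | base => rw [show a + 2 - 2 = a by omega, show (2)! = 2 from rfl]; linarith
  | succ b hb ih =>
    rw [Nat.factorial_succ, show a + (b + 1) - 2 = (a + b - 2) + 1 by omega, Nat.factorial_succ]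
    calc a ! * ((b + 1) * b !) = (b + 1) * (a ! * b !) := by ring
      _ ≤ (a + b - 2 + 1) * (2 * (a + b - 2)!) := Nat.mul_le_mul (by omega) ih
      _ = 2 * ((a + b - 2 + 1) * (a + b - 2)!) := by ring

lemma fac2 (q c : ℕ) (hc : 1 ≤ c) : (q + 1)! * c ! ≤ (q + c)! := by
  induction q with
  | zero => simp
  | succ q ih =>
    rw [Nat.factorial_succ, show q + 1 + c = (q + c) + 1 by omega, Nat.factorial_succ (q + c)]
    calc (q + 1 + 1) * (q + 1)! * c ! = (q + 1 + 1) * ((q + 1)! * c !) := by ring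
      _ ≤ (q + c + 1) * (q + c)! := Nat.mul_le_mul (by omega) ih

lemma fac3 (m N : ℕ) (hm : 4 ≤ m) (hmN : m ≤ N) : (m - 2)! * (N - 4)! ≤ (N - 2)! * (m - 4)! := by
  obtain ⟨m', rfl⟩ : ∃ m', m = m' + 4 := ⟨m - 4, by omega⟩
  obtain ⟨n, rfl⟩ : ∃ n, N = n + 4 := ⟨N - 4, by omega⟩
  rw [show m' + 4 - 2 = m' + 1 + 1 by omega, show n + 4 - 2 = n + 1 + 1 by omega,
    show m' + 4 - 4 = m' by omega, show n + 4 - 4 = n by omega]
  simp only [Nat.factorial_succ]
  have h : (m' + 1 + 1) * (m' + 1) ≤ (n + 1 + 1) * (n + 1) := Nat.mul_le_mul (by omega) (by omega)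
  calc (m' + 1 + 1) * ((m' + 1) * m' !) * n ! = ((m' + 1 + 1) * (m' + 1)) * (m' ! * n !) := by ring
    _ ≤ ((n + 1 + 1) * (n + 1)) * (m' ! * n !) := Nat.mul_le_mul_right _ h
    _ = (n + 1 + 1) * ((n + 1) * n !) * m' ! := by ring

lemma fac (a b q N : ℕ) (ha : 2 ≤ a) (hb : 2 ≤ b) (hN : a + b + q ≤ N) :
    (q + 1)! * a ! * b ! * (N - 4)! ≤ 2 * (N - 2)! * (a + b + q - 4)! := by
  have h1 := fac1 a b ha hb
  have h2 := fac2 q (a + b - 2) (by omega)
  have h3 := fac3 (a + b + q) N (by omega) hN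
  rw [show q + (a + b - 2) = a + b + q - 2 by omega] at h2
  calc (q + 1)! * a ! * b ! * (N - 4)! = (q + 1)! * (a ! * b !) * (N - 4)! := by ring
    _ ≤ (q + 1)! * (2 * (a + b - 2)!) * (N - 4)! := by gcongr
    _ = 2 * ((q + 1)! * (a + b - 2)!) * (N - 4)! := by ring
    _ ≤ 2 * (a + b + q - 2)! * (N - 4)! := by gcongr
    _ = 2 * ((a + b + q - 2)! * (N - 4)!) := by ring
    _ ≤ 2 * ((N - 2)! * (a + b + q - 4)!) := by gcongr
    _ = _ := by ring

/-- (g4) the fibre bound -/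
lemma fibre (H : HypI N R W A D Γ Λ) (hN : 0 < N) (r : β) (k : ℕ) (σ : Fin N → α)
    (QT : Finset (Fin N → β)) (hQ : ∀ τ ∈ QT, IsM N R W A D Λ r k σ τ) (J : Finset β)
    (hJ : ∀ u, u ∈ J ↔ u ∈ W ∧ ∀ h ∈ R, A u h → h ∈ D) :
    J.card * QT.card ≤ 2 * (N - 2)! := by
  classical
  rcases QT.eq_empty_or_nonempty with rfl | ⟨τ₀, hτ₀⟩
  · simp
  have M0 := hQ τ₀ hτ₀
  have O := ord_of_isM H hN M0
  set s := sx hN σ with hs
  have hk1 := O.two_le H
  have hk2 := O.le_two H
  have hrJ : r ∈ J := by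
    rw [hJ]
    exact ⟨M0.rW, M0.rD⟩
  have hJW : J ⊆ W := fun u hu => ((hJ u).1 hu).1
  set L₁ := (W.erase r).filter (fun u => A u (s 0)) with hL₁
  set L₂ := (W.erase r).filter (fun u => A u (s (N - 1))) with hL₂
  set L₃ := J.erase r with hL₃
  set Z₁ := (univ : Finset (Fin N)).filter
    (fun i : Fin N => ∀ h, Hi N k s (i : ℕ) h → h = s 0 ∨ Γ (s 0) h) with hZ₁
  set Z₂ := (univ : Finset (Fin N)).filter
    (fun i : Fin N => ∀ h, Hi N k s (i : ℕ) h → h = s (N - 1) ∨ Γ (s (N - 1)) h) with hZ₂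
  set Z₃ := (univ : Finset (Fin N)).filter
    (fun i : Fin N => ∀ h, Hi N k s (i : ℕ) h → h ∈ D) with hZ₃
  set F₁ : Finset (Fin N) := {⟨0, by omega⟩, ⟨1, by omega⟩} with hF₁
  set F₂ : Finset (Fin N) := {⟨N - 2, by omega⟩, ⟨N - 1, by omega⟩} with hF₂
  have hF₁c : F₁.card = 2 := by
    rw [hF₁, Finset.card_pair]
    intro h
    have := congrArg Fin.val h
    simp at this
  have hF₂c : F₂.card = 2 := by
    rw [hF₂, Finset.card_pair]
    intro h
    have := congrArg Fin.val h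
    simp at this
    omega
  have hfirst := O.first H
  have hlast := O.last H
  have hcl := O.closing H
  have hcl' := O.closing' H
  have hne : s 0 ≠ s (N - 1) := by
    intro h
    have := O.inj 0 (N - 1) (by omega) (by omega) h
    omega
  have hWc : (W.erase r).card = N := by
    rw [Finset.card_erase_of_mem M0.rW, H.cardW]; rfl
  have hL₁W : L₁ ⊆ W.erase r := Finset.filter_subset _ _
  have hL₂W : L₂ ⊆ W.erase r := Finset.filter_subset _ _
  have hL₃W : L₃ ⊆ W.erase r := Finset.erase_subset_erase _ hJW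
  have h0R := O.mem 0 (by omega)
  have h1R := O.mem (N - 1) (by omega)
  have d12 : Disjoint L₁ L₂ := by
    rw [Finset.disjoint_left]
    intro u h1 h2
    rw [hL₁, Finset.mem_filter] at h1
    rw [hL₂, Finset.mem_filter] at h2
    exact hcl' (H.clique u (Finset.mem_of_mem_erase h1.1) _ h0R _ h1R h1.2 h2.2 hne)
  have d13 : Disjoint L₁ L₃ := by
    rw [Finset.disjoint_left]
    intro u h1 h2
    rw [hL₁, Finset.mem_filter] at h1
    rw [hL₃, Finset.mem_erase, hJ] at h2
    exact hfirst (h2.2.2 _ h0R h1.2)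
  have d23 : Disjoint L₂ L₃ := by
    rw [Finset.disjoint_left]
    intro u h1 h2
    rw [hL₂, Finset.mem_filter] at h1
    rw [hL₃, Finset.mem_erase, hJ] at h2
    exact hlast (h2.2.2 _ h1R h1.2)
  have z12 : Disjoint Z₁ Z₂ := by
    rw [Finset.disjoint_left]
    intro i h1 h2
    rw [hZ₁, Finset.mem_filter] at h1
    rw [hZ₂, Finset.mem_filter] at h2
    rcases slot_cases (k := k) (s := s) i.2 with h | h | ⟨j, hj, hjk, a1, a2⟩
    · rcases h2.2 (s 0) (Or.inl (by rw [h])) with h' | h'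
      · exact hne h'
      · exact hcl h'
    · rcases h1.2 (s (N - 1)) (Or.inl (by rw [h])) with h' | h'
      · exact hne h'.symm
      · exact hcl' h'
    · have b1 : Γ (s 0) (s (j + 1)) := by
        rcases h1.2 _ a2 with h' | h'
        · have := O.inj _ _ (by omega) (by omega) h'
          omega
        · exact h'
      have b2 : Γ (s (N - 1)) (s j) := by
        rcases h2.2 _ a1 with h' | h'
        · have := O.inj _ _ (by omega) (by omega) h'
          omega
        · exact h'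
      exact O.cross H hj hjk b1 b2
  have z13 : Disjoint Z₁ Z₃ := by
    rw [Finset.disjoint_left]
    intro i h1 h2
    rw [hZ₁, Finset.mem_filter] at h1
    rw [hZ₃, Finset.mem_filter] at h2
    rcases slot_cases (k := k) (s := s) i.2 with h | h | ⟨j, hj, hjk, a1, a2⟩
    · exact hfirst (h2.2 (s 0) (Or.inl (by rw [h])))
    · exact hlast (h2.2 (s (N - 1)) (Or.inl (by rw [h])))
    · have b1 : Γ (s 0) (s (j + 1)) := by
        rcases h1.2 _ a2 with h' | h'
        · have := O.inj _ _ (by omega) (by omega) h'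
          omega
        · exact h'
      exact O.jump1 H hj hjk b1 (h2.2 _ a1)
  have z23 : Disjoint Z₂ Z₃ := by
    rw [Finset.disjoint_left]
    intro i h1 h2
    rw [hZ₂, Finset.mem_filter] at h1
    rw [hZ₃, Finset.mem_filter] at h2
    rcases slot_cases (k := k) (s := s) i.2 with h | h | ⟨j, hj, hjk, a1, a2⟩
    · exact hfirst (h2.2 (s 0) (Or.inl (by rw [h])))
    · exact hlast (h2.2 (s (N - 1)) (Or.inl (by rw [h])))
    · have b1 : Γ (s (N - 1)) (s j) := by
        rcases h1.2 _ a1 with h' | h'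
        · have := O.inj _ _ (by omega) (by omega) h'
          omega
        · exact h'
      exact O.jump2 H hj hjk b1 (h2.2 _ a2)
  -- conditions on the lows
  have hcond : ∀ τ ∈ QT, Function.Injective τ ∧ (∀ i, τ i ∈ W.erase r) ∧
      (∀ i, τ i ∈ L₁ → i ∈ Z₁) ∧ (∀ i, τ i ∈ L₂ → i ∈ Z₂) ∧ (∀ i, τ i ∈ L₃ → i ∈ Z₃) ∧
      (∀ i ∈ F₁, τ i ∈ L₁) ∧ (∀ i ∈ F₂, τ i ∈ L₂) := by
    intro τ hτ
    have M := hQ τ hτ
    have hW' : ∀ i, τ i ∈ W.erase r := fun i => Finset.mem_erase.2 ⟨M.τr i, M.τW i⟩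
    refine ⟨M.τinj, hW', ?_, ?_, ?_, ?_, ?_⟩
    · intro i hi
      rw [hL₁, Finset.mem_filter] at hi
      rw [hZ₁, Finset.mem_filter]
      refine ⟨Finset.mem_univ _, fun h hh => ?_⟩
      obtain ⟨c1, c2⟩ := hiA hN M i hh
      by_cases e : h = s 0
      · exact Or.inl e
      · exact Or.inr (H.clique (τ i) (M.τW i) _ h0R _ c2 hi.2 c1 (Ne.symm e))
    · intro i hi
      rw [hL₂, Finset.mem_filter] at hi
      rw [hZ₂, Finset.mem_filter]
      refine ⟨Finset.mem_univ _, fun h hh => ?_⟩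
      obtain ⟨c1, c2⟩ := hiA hN M i hh
      by_cases e : h = s (N - 1)
      · exact Or.inl e
      · exact Or.inr (H.clique (τ i) (M.τW i) _ h1R _ c2 hi.2 c1 (Ne.symm e))
    · intro i hi
      rw [hL₃, Finset.mem_erase, hJ] at hi
      rw [hZ₃, Finset.mem_filter]
      refine ⟨Finset.mem_univ _, fun h hh => ?_⟩
      obtain ⟨c1, c2⟩ := hiA hN M i hh
      exact hi.2.2 h c2 c1
    · intro i hi
      rw [hL₁, Finset.mem_filter]
      refine ⟨hW' i, ?_⟩
      rw [hF₁, Finset.mem_insert, Finset.mem_singleton] at hi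
      rcases hi with rfl | rfl
      · exact (hiA hN M ⟨0, by omega⟩ (Or.inl rfl)).1
      · exact (hiA hN M ⟨1, by omega⟩ (Or.inr (Or.inl ⟨le_refl 1, show 1 < k by omega, rfl⟩))).1
    · intro i hi
      rw [hL₂, Finset.mem_filter]
      refine ⟨hW' i, ?_⟩
      rw [hF₂, Finset.mem_insert, Finset.mem_singleton] at hi
      rcases hi with rfl | rfl
      · refine (hiA hN M ⟨N - 2, by omega⟩ (Or.inr (Or.inr ⟨show k ≤ N - 2 by omega,
          show N - 2 + 1 < N by omega, ?_⟩))).1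
        show s (N - 1) = s (N - 2 + 1)
        rw [show N - 2 + 1 = N - 1 by omega]
      · exact (hiA hN M ⟨N - 1, by omega⟩ (Or.inl rfl)).1
  have hF₁Z : F₁ ⊆ Z₁ := by
    intro i hi
    exact (hcond τ₀ hτ₀).2.2.1 i ((hcond τ₀ hτ₀).2.2.2.2.2.1 i hi)
  have hF₂Z : F₂ ⊆ Z₂ := by
    intro i hi
    exact (hcond τ₀ hτ₀).2.2.2.1 i ((hcond τ₀ hτ₀).2.2.2.2.2.2 i hi)
  have key := zone (W.erase r) hWc L₁ L₂ L₃ hL₁W hL₂W hL₃W d12 d13 d23 Z₁ Z₂ Z₃ F₁ F₂ z12 z13 z23
    hF₁Z hF₂Z QT hcond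
  rw [hF₁c, hF₂c] at key
  have ha : 2 ≤ L₁.card := by
    rw [← hF₁c]
    exact Finset.card_le_card_of_injOn τ₀ (fun i hi => (hcond τ₀ hτ₀).2.2.2.2.2.1 i hi)
      (fun i _ j _ h => M0.τinj h)
  have hb : 2 ≤ L₂.card := by
    rw [← hF₂c]
    exact Finset.card_le_card_of_injOn τ₀ (fun i hi => (hcond τ₀ hτ₀).2.2.2.2.2.2 i hi)
      (fun i _ j _ h => M0.τinj h)
  have hsum : L₁.card + L₂.card + L₃.card ≤ N := by
    rw [← hWc, ← Finset.card_union_of_disjoint d12,
      ← Finset.card_union_of_disjoint (Finset.disjoint_union_left.2 ⟨d13, d23⟩)]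
    exact Finset.card_le_card (Finset.union_subset (Finset.union_subset hL₁W hL₂W) hL₃W)
  have hJc : J.card = L₃.card + 1 := by
    rw [hL₃, Finset.card_erase_of_mem hrJ]
    have := Finset.card_pos.2 ⟨r, hrJ⟩
    omega
  have hfac := fac L₁.card L₂.card L₃.card N ha hb hsum
  rw [show N - 2 - 2 = N - 4 by omega,
    show L₁.card + L₂.card + L₃.card - 2 - 2 = L₁.card + L₂.card + L₃.card - 4 by omega] at key
  have hpos : 0 < (L₁.card + L₂.card + L₃.card - 4)! := Nat.factorial_pos _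
  apply Nat.le_of_mul_le_mul_right _ hpos
  calc J.card * QT.card * (L₁.card + L₂.card + L₃.card - 4)!
      = J.card * (QT.card * (L₁.card + L₂.card + L₃.card - 4)!) := by ring
    _ ≤ J.card * (L₁.card ! * L₂.card ! * L₃.card ! * (N - 4)!) := Nat.mul_le_mul_left _ key
    _ = (L₃.card + 1)! * L₁.card ! * L₂.card ! * (N - 4)! := by
        rw [hJc, Nat.factorial_succ]; ring
    _ ≤ 2 * (N - 2)! * (L₁.card + L₂.card + L₃.card - 4)! := hfac

lemma card_inj_le {α : Type*} [DecidableEq α] {N : ℕ} {R : Finset α} (hR : R.card = N)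
    (T : Finset (Fin N → α)) (hT : ∀ σ ∈ T, Function.Injective σ ∧ ∀ i, σ i ∈ R) :
    T.card ≤ N ! := by
  have h := zone_col (fun _ : Fin N => ()) (fun _ => R) T hT
  simpa [hR] using h

/-- rotation -/
def rot (N k i : ℕ) : ℕ := if i < N - k then k + i else i - (N - k)

lemma rot_lt {k i : ℕ} (hk : k < N) (hi : i < N) : rot N k i < N := by
  unfold rot; split_ifs <;> omega

lemma orders (H : HypI N R W A D Γ Λ) [DecidableEq α] (hN : 0 < N) (P : Finset (ℕ × (Fin N → α)))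
    (hP : ∀ x ∈ P, Ord N R D Γ Λ x.1 (sx hN x.2)) : P.card ≤ N ! := by
  classical
  let Φ : ℕ × (Fin N → α) → (Fin N → α) := fun x i => sx hN x.2 (rot N x.1 i)
  have hinj : Set.InjOn Φ (P : Set (ℕ × (Fin N → α))) := by
    have key : ∀ x ∈ P, ∀ y ∈ P, Φ x = Φ y → ¬ x.1 < y.1 := by
      intro x hx y hy e hlt
      have Ox := hP x hx
      have Oy := hP y hy
      have kx := Ox.k2
      have ky1 := Oy.two_le H
      have ky := Oy.le_two H
      have e1 := congrFun e ⟨N - y.1 - 1, by omega⟩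
      have e2 := congrFun e ⟨N - y.1, by omega⟩
      simp only [Φ, rot] at e1 e2
      rw [if_pos (by omega), if_pos (by omega)] at e1
      rw [if_pos (by omega), if_neg (by omega)] at e2
      have h1 : y.1 + (N - y.1 - 1) = N - 1 := by omega
      have h2 : N - y.1 - (N - y.1) = 0 := by omega
      rw [h1] at e1
      rw [h2] at e2
      apply Oy.closing H
      rw [← e1, ← e2]
      have h3 : x.1 + (N - y.1) = x.1 + (N - y.1 - 1) + 1 := by omega
      rw [h3]
      exact Ox.gam _ (by omega) (by omega)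
    intro x hx y hy e
    have hk : x.1 = y.1 := by
      have h1 := key x hx y hy e
      have h2 := key y hy x hx e.symm
      omega
    have kx := (hP x hx).k2
    have kx1 := (hP x hx).k1
    refine Prod.ext hk ?_
    funext j
    have hj := j.2
    have e1 := congrFun e ⟨if (j : ℕ) < x.1 then (j : ℕ) + (N - x.1) else (j : ℕ) - x.1, by
      split_ifs <;> omega⟩
    simp only [Φ, ← hk] at e1
    have hr : rot N x.1 (if (j : ℕ) < x.1 then (j : ℕ) + (N - x.1) else (j : ℕ) - x.1) = j := by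
      unfold rot
      split_ifs <;> omega
    rw [hr, sx_lt hN _ hj, sx_lt hN _ hj] at e1
    exact e1
  rw [← Finset.card_image_of_injOn hinj]
  apply card_inj_le H.cardR
  intro ω hω
  obtain ⟨x, hx, rfl⟩ := Finset.mem_image.1 hω
  have Ox := hP x hx
  have kx := Ox.k2
  constructor
  · intro i j e
    have h1 := Ox.inj _ _ (rot_lt kx i.2) (rot_lt kx j.2) e
    have hi := i.2
    have hj := j.2
    unfold rot at h1
    apply Fin.ext
    split_ifs at h1 <;> omega
  · intro i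
    exact Ox.mem _ (rot_lt kx i.2)

lemma orders_four (H : HypI 4 R W A D Γ Λ) [DecidableEq α]
    (P : Finset (ℕ × (Fin 4 → α)))
    (hP : ∀ x ∈ P, Ord 4 R D Γ Λ x.1 (sx (by norm_num) x.2)) : P.card ≤ 12 := by
  classical
  have hk : ∀ x ∈ P, x.1 = 2 := by
    intro x hx
    have h1 := (hP x hx).two_le H
    have h2 := (hP x hx).le_two H
    omega
  set T := P.image Prod.snd with hT
  have hc : P.card = T.card := by
    rw [hT, Finset.card_image_of_injOn]
    intro x hx y hy e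
    exact Prod.ext ((hk x hx).trans (hk y hy).symm) e
  set e : Equiv.Perm (Fin 4) := Equiv.swap 0 1 with he
  set T' := T.image (fun σ => σ ∘ e) with hT'
  have hc' : T'.card = T.card := by
    rw [hT', Finset.card_image_of_injective]
    intro σ σ' h
    funext i
    have := congrFun h (e.symm i)
    simpa using this
  have hprop : ∀ σ ∈ T, Function.Injective σ ∧ (∀ i, σ i ∈ R) ∧ σ 0 ∉ D ∧ σ 1 ∈ D := by
    intro σ hσ
    obtain ⟨x, hx, rfl⟩ := Finset.mem_image.1 hσ
    have O := hP x hx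
    have h2 := hk x hx
    refine ⟨?_, ?_, ?_, ?_⟩
    · intro i j h
      apply Fin.ext
      apply O.inj _ _ i.2 j.2
      rw [sx_lt _ _ i.2, sx_lt _ _ j.2]
      exact h
    · intro i
      have := O.mem i i.2
      rwa [sx_lt _ _ i.2] at this
    · have := O.first H
      rwa [sx_lt _ _ (by norm_num)] at this
    · have := O.dl
      rw [h2, sx_lt _ _ (by norm_num)] at this
      exact this
  have hdisj : Disjoint T T' := by
    rw [Finset.disjoint_left]
    intro σ h1 h2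
    obtain ⟨σ', h3, rfl⟩ := Finset.mem_image.1 h2
    have h4 := (hprop _ h1).2.2.1
    apply h4
    show σ' (e 0) ∈ D
    rw [he, Equiv.swap_apply_left]
    exact (hprop _ h3).2.2.2
  have hle : (T ∪ T').card ≤ 4 ! := by
    apply card_inj_le H.cardR
    intro σ hσ
    rcases Finset.mem_union.1 hσ with h | h
    · exact ⟨(hprop _ h).1, (hprop _ h).2.1⟩
    · obtain ⟨σ', h3, rfl⟩ := Finset.mem_image.1 h
      exact ⟨(hprop _ h3).1.comp e.injective, fun i => (hprop _ h3).2.1 _⟩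
  rw [Finset.card_union_of_disjoint hdisj, hc'] at hle
  have h24 : (4)! = 24 := rfl
  omega

lemma total [DecidableEq α] (H : HypI N R W A D Γ Λ) (hN : 0 < N) (B : ℕ)
    (Q : Finset (β × ℕ × (Fin N → α) × (Fin N → β)))
    (hQ : ∀ x ∈ Q, IsM N R W A D Λ x.1 x.2.1 x.2.2.1 x.2.2.2)
    (hB : (Q.image (fun x => (x.2.1, x.2.2.1))).card ≤ B) : Q.card ≤ 2 * (N - 2)! * B := by
  classical
  refine (Finset.card_le_mul_card_image (f := fun x => (x.2.1, x.2.2.1)) Q (2 * (N - 2)!) ?_).trans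
    (Nat.mul_le_mul_left _ hB)
  rintro ⟨k, σ⟩ _
  set F := Q.filter (fun x => (x.2.1, x.2.2.1) = (k, σ)) with hF
  set J := W.filter (fun u => ∀ h ∈ R, A u h → h ∈ D) with hJ
  have hJm : ∀ u, u ∈ J ↔ u ∈ W ∧ ∀ h ∈ R, A u h → h ∈ D := by
    intro u
    rw [hJ, Finset.mem_filter]
  have hmem : ∀ x ∈ F, x ∈ Q ∧ x.2.1 = k ∧ x.2.2.1 = σ := by
    intro x hx
    rw [hF, Finset.mem_filter, Prod.mk.injEq] at hx
    exact hx
  rcases F.eq_empty_or_nonempty with h0 | ⟨x₀, hx₀⟩
  · rw [h0]; simp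
  have hJpos : 0 < J.card := by
    apply Finset.card_pos.2
    refine ⟨x₀.1, ?_⟩
    rw [hJ, Finset.mem_filter]
    have M := hQ x₀ (hmem x₀ hx₀).1
    exact ⟨M.rW, M.rD⟩
  have h1 : F.card ≤ (2 * (N - 2)! / J.card) * (F.image Prod.fst).card := by
    apply Finset.card_le_mul_card_image
    intro r hr
    rw [Nat.le_div_iff_mul_le hJpos]
    have hinj : Set.InjOn (fun x : β × ℕ × (Fin N → α) × (Fin N → β) => x.2.2.2)
        ((F.filter (fun x => x.1 = r) : Finset _) : Set (β × ℕ × (Fin N → α) × (Fin N → β))) := by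
      intro x hx y hy e
      rw [Finset.mem_coe, Finset.mem_filter] at hx hy
      have hx' := hmem x hx.1
      have hy' := hmem y hy.1
      exact Prod.ext (hx.2.trans hy.2.symm) (Prod.ext (hx'.2.1.trans hy'.2.1.symm)
        (Prod.ext (hx'.2.2.trans hy'.2.2.symm) e))
    rw [← Finset.card_image_of_injOn hinj, mul_comm]
    refine fibre H hN r k σ _ ?_ J hJm
    intro τ hτ
    obtain ⟨x, hx, rfl⟩ := Finset.mem_image.1 hτ
    rw [Finset.mem_filter] at hx
    have hx' := hmem x hx.1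
    have M := hQ x hx'.1
    rw [hx.2, hx'.2.1, hx'.2.2] at M
    exact M
  have h2 : (F.image Prod.fst).card ≤ J.card := by
    apply Finset.card_le_card
    intro r hr
    obtain ⟨x, hx, rfl⟩ := Finset.mem_image.1 hr
    have M := hQ x (hmem x hx).1
    rw [hJ, Finset.mem_filter]
    exact ⟨M.rW, M.rD⟩
  exact h1.trans ((Nat.mul_le_mul_left _ h2).trans (Nat.div_mul_le_self _ _))

end count

end MB

open Finset Nat

/-- M. -/
theorem M_bound {α β : Type*} [DecidableEq α] [DecidableEq β] {N : ℕ} (hN : 3 ≤ N)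
    (R : Finset α) (W : Finset β) (A : β → α → Prop) (D : Finset α) (Γ Λ : α → α → Prop)
    (H : HypI N R W A D Γ Λ) (Q : Finset (β × ℕ × (Fin N → α) × (Fin N → β)))
    (hQ : ∀ x ∈ Q, IsM N R W A D Λ x.1 x.2.1 x.2.2.1 x.2.2.2) :
    Q.card ≤ 2 * N ! * (N - 2)! := by
  classical
  have h0 : 0 < N := by omega
  have h := MB.total (N := N) H h0 (N !) Q hQ (by
    apply MB.orders H h0
    intro y hy
    obtain ⟨x, hx, rfl⟩ := Finset.mem_image.1 hy
    exact MB.ord_of_isM H h0 (hQ x hx))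
  calc Q.card ≤ 2 * (N - 2)! * N ! := h
    _ = _ := by ring

/-- M is empty for `N = 3`. -/
theorem M_three {α β : Type*} {R : Finset α} {W : Finset β} {A : β → α → Prop}
    {D : Finset α} {Γ Λ : α → α → Prop}
    (H : HypI 3 R W A D Γ Λ) (r : β) (k : ℕ) (σ : Fin 3 → α) (τ : Fin 3 → β) :
    ¬ IsM 3 R W A D Λ r k σ τ := by
  intro h
  have O := MB.ord_of_isM H (by norm_num) h
  have h1 := O.two_le H
  have h2 := O.le_two H
  omega

/-- M for `N = 4`. -/
theorem M_four {α β : Type*} [DecidableEq α] [DecidableEq β]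
    (R : Finset α) (W : Finset β) (A : β → α → Prop) (D : Finset α) (Γ Λ : α → α → Prop)
    (H : HypI 4 R W A D Γ Λ) (Q : Finset (β × ℕ × (Fin 4 → α) × (Fin 4 → β)))
    (hQ : ∀ x ∈ Q, IsM 4 R W A D Λ x.1 x.2.1 x.2.2.1 x.2.2.2) :
    Q.card ≤ 48 := by
  classical
  have h := MB.total H (by norm_num) 12 Q hQ (by
    apply MB.orders_four H
    intro y hy
    obtain ⟨x, hx, rfl⟩ := Finset.mem_image.1 hy
    exact MB.ord_of_isM H (by norm_num) (hQ x hx))
  have h2 : (4 - 2)! = 2 := rfl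
  rw [h2] at h
  omega

end P490135
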