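import Pool.Agent.Work.MP_490135_co.Bd.B04
import Pool.Agent.Work.MP_490135_co.Bd.B03
import Pool.Agent.Work.MP_490135_co.Bd.B01

/-!
# MP_490135_co: final assembly (helper81)
-/

namespace P490135

open SimpleGraph Finset Nat

theorem short_induce {V : Type*} {G : SimpleGraph V} {ℓ : ℕ} (h : Short G ℓ) (U : Set V) :
    Short (G.induce U) ℓ := by
  intro l hnd hch
  have := h (l.map Subtype.val) (hnd.map Subtype.val_injective) ?_
  · simpa using this
  · rw [List.isChain_map]
    exact hch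

theorem MPs_le {V : Type*} [Fintype V] (G : SimpleGraph V) (N : ℕ) :
    (MPs G N).card ≤ (Fintype.card V * Fintype.card V) ^ (N + 1) := by
  classical
  calc (MPs G N).card ≤ Fintype.card (Fin (N + 1) → V × V) := Finset.card_le_univ _
    _ = _ := by
      rw [Fintype.card_fun, Fintype.card_prod, Fintype.card_fin]

theorem mem_MPs {V : Type*} [Fintype V] {G : SimpleGraph V} {N : ℕ}
    {q : Fin (N + 1) → V × V} : q ∈ MPs G N ↔ IsMP G (N + 1) q := by
  classical
  unfold MPs
  rw [mem_filter]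
  simp

theorem same_side {V : Type*} {G : SimpleGraph V} {N : ℕ} {U : Set V}
    (hU : ∀ a b, G.Adj a b → a ∈ U → b ∈ U) {q : Fin (N + 1) → V × V}
    (hq : IsMP G (N + 1) q) (h0 : (q 0).1 ∈ U) : ∀ i, (q i).1 ∈ U ∧ (q i).2 ∈ U := by
  have key : ∀ j : ℕ, ∀ hj : j < N + 1, (q ⟨j, hj⟩).1 ∈ U ∧ (q ⟨j, hj⟩).2 ∈ U := by
    intro j
    induction j with
    | zero =>
      intro hj
      have h1 : (q ⟨0, hj⟩).1 ∈ U := h0
      exact ⟨h1, hU _ _ (hq.adj _) h1⟩
    | succ j ih =>
      intro hj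
      have h1 := (ih (by omega)).2
      have h2 := hq.adj' ⟨j, by omega⟩ ⟨j + 1, hj⟩ rfl
      have h3 := hU _ _ h2 h1
      exact ⟨h3, hU _ _ (hq.adj _) h3⟩
  intro i
  exact key i.1 i.2

theorem MPs_split {V : Type*} [Fintype V] (G : SimpleGraph V) (N : ℕ) (U : Set V) [Fintype U]
    [Fintype (Uᶜ : Set V)] (hU : ∀ a b, G.Adj a b → a ∈ U → b ∈ U) :
    (MPs G N).card ≤ (MPs (G.induce U) N).card + (MPs (G.induce Uᶜ) N).card := by
  classical
  have hU' : ∀ a b, G.Adj a b → a ∈ Uᶜ → b ∈ Uᶜ := fun a b hab ha hb => ha (hU b a hab.symm hb)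
  have hside : ∀ (W : Set V) [Fintype W], ∀ q, IsMP G (N + 1) q →
      (∀ i, (q i).1 ∈ W ∧ (q i).2 ∈ W) →
      q ∈ (MPs (G.induce W) N).image (fun r i => ((r i).1.1, (r i).2.1)) := by
    intro W _ q hq hW
    rw [mem_image]
    refine ⟨fun i => (⟨(q i).1, (hW i).1⟩, ⟨(q i).2, (hW i).2⟩), ?_, ?_⟩
    · rw [mem_MPs]
      refine ⟨?_, ?_, ?_, ?_, ?_⟩
      · intro i
        exact hq.adj i
      · intro i j hij
        exact hq.adj' i j hij
      · intro i j hij
        exact hq.inj1 i j (congrArg Subtype.val hij)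
      · intro i j hij
        exact hq.inj2 i j (congrArg Subtype.val hij)
      · intro i j hij
        exact hq.ne12 i j (congrArg Subtype.val hij)
    · rfl
  have hsub : MPs G N ⊆ (MPs (G.induce U) N).image (fun r i => ((r i).1.1, (r i).2.1)) ∪
      (MPs (G.induce Uᶜ) N).image (fun r i => ((r i).1.1, (r i).2.1)) := by
    intro q hq
    rw [mem_MPs] at hq
    rw [mem_union]
    by_cases h0 : (q 0).1 ∈ U
    · left
      exact hside U q hq (same_side hU hq h0)
    · right
      exact hside Uᶜ q hq (same_side hU' hq h0)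
  calc (MPs G N).card ≤ _ := card_le_card hsub
    _ ≤ _ := card_union_le _ _
    _ ≤ _ := Nat.add_le_add card_image_le card_image_le

theorem reach_induce {V : Type*} {G : SimpleGraph V} {U : Set V}
    (hU : ∀ a b, G.Adj a b → a ∈ U → b ∈ U) {u v : V} (w : G.Walk u v) (hu : u ∈ U) :
    ∃ hv : v ∈ U, (G.induce U).Reachable ⟨u, hu⟩ ⟨v, hv⟩ := by
  induction w with
  | nil => exact ⟨hu, Reachable.refl _⟩
  | cons h p ih =>
    have h1 := hU _ _ h hu
    obtain ⟨hv, h2⟩ := ih h1
    refine ⟨hv, Reachable.trans ?_ h2⟩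
    apply Adj.reachable
    exact h

open Classical in
/-- splitting off the component of a core -/
theorem core_split (N : ℕ) (hN : 3 ≤ N) : ∃ K₀ : ℕ, ∀ K, K₀ ≤ K → ∀ (V : Type) [Fintype V]
    (G : SimpleGraph V), Short G (N + 1) → ∀ C : Finset V, C.card = N → IsCore G K C →
    ∃ U : Set V, 0 < Fintype.card U ∧ Fintype.card U + Fintype.card (Uᶜ : Set V) = Fintype.card V ∧
      (MPs G N).card ≤ 2 * Fn (N + 1) (Fintype.card U) + (MPs (G.induce Uᶜ) N).card := by
  obtain ⟨K₀, hK₀⟩ := core_count N hN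
  refine ⟨K₀, ?_⟩
  intro K hK V _ G hS C hC hcore
  obtain ⟨U, hUdef⟩ : ∃ U : Set V, ∀ v, v ∈ U ↔ ∃ c ∈ C, G.Reachable c v :=
    ⟨{v | ∃ c ∈ C, G.Reachable c v}, fun v => Iff.rfl⟩
  have hU : ∀ a b, G.Adj a b → a ∈ U → b ∈ U := by
    intro a b hab ha
    rw [hUdef] at ha ⊢
    obtain ⟨c, hc, hr⟩ := ha
    exact ⟨c, hc, hr.trans hab.reachable⟩
  have hCU : ∀ c ∈ C, c ∈ U := by
    intro c hc
    rw [hUdef]
    exact ⟨c, hc, Reachable.refl _⟩
  have hne : C.Nonempty := by
    rw [← card_pos]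
    omega
  obtain ⟨c₀, hc₀⟩ := hne
  refine ⟨U, Fintype.card_pos_iff.mpr ⟨⟨c₀, hCU c₀ hc₀⟩⟩, ?_, ?_⟩
  · rw [Fintype.card_compl_set]
    have := set_fintype_card_le_univ U
    omega
  · have h1 := MPs_split G N U hU
    set C' : Finset U := univ.filter (fun x : U => x.1 ∈ C) with hC'
    have hC'card : C'.card = N := by
      rw [← hC]
      apply card_bij (fun x _ => x.1)
      · intro x hx
        rw [hC', mem_filter] at hx
        exact hx.2
      · intro x _ y _ hxy
        exact Subtype.ext hxy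
      · intro c hc
        exact ⟨⟨c, hCU c hc⟩, by rw [hC', mem_filter]; exact ⟨mem_univ _, hc⟩, rfl⟩
    have hcore' : IsCore (G.induce U) K C' := by
      intro X hX
      obtain ⟨z, hz, hadj⟩ := hcore (X.image Subtype.val) (le_trans card_image_le hX)
      have hzU : z ∈ U := hU _ _ (hadj c₀ hc₀) (hCU c₀ hc₀)
      refine ⟨⟨z, hzU⟩, ?_, ?_⟩
      · intro h
        exact hz (mem_image.mpr ⟨_, h, rfl⟩)
      · intro c hc
        rw [hC', mem_filter] at hc
        exact hadj c.1 hc.2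
    have h2 := hK₀ K hK U (G.induce U) (short_induce hS U) C' hC'card hcore' (by
      rintro ⟨v, hvU⟩
      obtain ⟨c, hc, ⟨w⟩⟩ := (hUdef v).mp hvU
      obtain ⟨hv, hr⟩ := reach_induce hU w (hCU c hc)
      exact ⟨⟨c, hCU c hc⟩, by rw [hC', mem_filter]; exact ⟨mem_univ _, hc⟩, hr⟩)
    have h3 : (MPs (G.induce U) N).card ≤ 2 * Fn (N + 1) (Fintype.card U) := by
      unfold MPs
      convert h2
    omega

/-- The upper bound for all large `n`. -/
theorem upper (N : ℕ) (hN : 3 ≤ N) : ∃ n₂ : ℕ, ∀ (V : Type) [Fintype V] (G : SimpleGraph V),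
    Short G (N + 1) → n₂ ≤ Fintype.card V →
    (MPs G N).card ≤ 2 * Fn (N + 1) (Fintype.card V) := by
  classical
  obtain ⟨K₀, hcs⟩ := core_split N hN
  set K := max K₀ (2 * N + 12) with hK
  have hcs' := hcs K (le_max_left _ _)
  obtain ⟨n₁, hn₁⟩ := no_core N hN K (le_max_right _ _)
  set K₁ := (n₁ * n₁) ^ (N + 1) with hK₁
  have lemA : ∀ n : ℕ, ∀ (V : Type) [Fintype V] (G : SimpleGraph V), Fintype.card V = n →
      Short G (N + 1) → (MPs G N).card ≤ 2 * Fn (N + 1) n + K₁ := by
    intro n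
    induction n using Nat.strong_induction_on with
    | _ n ih =>
      intro V _ G hn hS
      rcases Nat.lt_or_ge n n₁ with hlt | hge
      · have h1 := MPs_le G N
        rw [hn] at h1
        have h2 : (n * n) ^ (N + 1) ≤ K₁ :=
          Nat.pow_le_pow_left (Nat.mul_le_mul hlt.le hlt.le) _
        omega
      · by_cases hc : ∃ C : Finset V, C.card = N ∧ IsCore G K C
        · obtain ⟨C, hC, hcore⟩ := hc
          obtain ⟨U, hU0, hUc, hle⟩ := hcs' V G hS C hC hcore
          have h1 := ih (Fintype.card (Uᶜ : Set V)) (by omega) (Uᶜ : Set V) (G.induce Uᶜ) rfl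
            (short_induce hS _)
          have h2 := Fn_super (N + 1) (by omega) (Fintype.card U) (Fintype.card (Uᶜ : Set V))
          rw [hUc, hn] at h2
          omega
        · have h1 := hn₁ V G hS (fun C hC hcore => hc ⟨C, hC, hcore⟩) (by omega)
          rw [hn] at h1
          omega
  obtain ⟨a₀, ha₀⟩ := Fn_super_strict (N + 1) (by omega) K₁
  refine ⟨n₁ + 2 * a₀, ?_⟩
  intro V _ G hS hn
  by_cases hc : ∃ C : Finset V, C.card = N ∧ IsCore G K C
  · obtain ⟨C, hC, hcore⟩ := hc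
    obtain ⟨U, hU0, hUc, hle⟩ := hcs' V G hS C hC hcore
    set a := Fintype.card U with ha
    set b := Fintype.card (Uᶜ : Set V) with hb
    rcases Nat.eq_zero_or_pos b with hb0 | hb0
    · have h1 := MPs_le (G.induce Uᶜ) N
      rw [← hb, hb0] at h1
      have h2 : (0 * 0) ^ (N + 1) = 0 := by simp
      rw [h2] at h1
      have h3 : a = Fintype.card V := by omega
      rw [h3] at hle
      omega
    · have h1 := lemA b (Uᶜ : Set V) (G.induce Uᶜ) rfl (short_induce hS _)
      have h2 : Fn (N + 1) a + Fn (N + 1) b + K₁ ≤ Fn (N + 1) (Fintype.card V) := by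
        rcases Nat.lt_or_ge a a₀ with h | h
        · have := ha₀ b a (by omega) hU0
          rw [← hUc, Nat.add_comm a b]
          omega
        · have := ha₀ a b h hb0
          rw [← hUc]
          exact this
      omega
  · exact hn₁ V G hS (fun C hC hcore => hc ⟨C, hC, hcore⟩) (by omega)

open Classical in
/-- The answer for `k = 2ℓ + 1`, `ℓ = N + 1 ≥ 4`. -/
theorem ex_main (N : ℕ) (hN : 3 ≤ N) : ∃ n₀ : ℕ, ∀ n ≥ n₀,
    IsGreatest {c | ∃ G : SimpleGraph (Fin n), (pathGraph (2 * (N + 1) + 1)).Free G ∧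
      G.copyCount (pathGraph (2 * (N + 1))) = c}
      ((Finset.range (n - (N + 1) + 1)).sup
        (fun m => (Gnkm n (N + 1) m).copyCount (pathGraph (2 * (N + 1))))) := by
  obtain ⟨n₂, hn₂⟩ := upper N hN
  refine ⟨n₂ + (N + 1), ?_⟩
  intro n hn
  constructor
  · obtain ⟨m, hm, he⟩ := Finset.exists_mem_eq_sup (Finset.range (n - (N + 1) + 1)) (by simp)
      (fun m => (Gnkm n (N + 1) m).copyCount (pathGraph (2 * (N + 1))))
    rw [he]
    exact ⟨Gnkm n (N + 1) m, free_of_short _ _ (gnkm_short n (N + 1) m (by omega)), rfl⟩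
  · rintro c ⟨G, hG, rfl⟩
    have hS := short_of_free G (N + 1) hG
    have h1 := hn₂ (Fin n) G hS (by rw [Fintype.card_fin]; omega)
    have h2 := two_mul_copyCount G (N + 1) (by omega)
    have h3 : (univ.filter (fun q : Fin (N + 1) → Fin n × Fin n => IsMP G (N + 1) q)).card =
        (MPs G N).card := by
      unfold MPs
      congr
    rw [h3] at h2
    rw [Fintype.card_fin] at h1
    obtain ⟨m, hm, hF⟩ := fnl_max (N + 1) n
    have h4 := gnkm_count n (N + 1) m (by omega) (by omega)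
    have h5 := two_mul_copyCount (Gnkm n (N + 1) m) (N + 1) (by omega)
    rw [← h5] at h4
    have h6 : Fn (N + 1) n ≤ (Gnkm n (N + 1) m).copyCount (pathGraph (2 * (N + 1))) := by
      rw [hF]
      unfold fnl_g
      omega
    have h7 : (Gnkm n (N + 1) m).copyCount (pathGraph (2 * (N + 1))) ≤
        (Finset.range (n - (N + 1) + 1)).sup
          (fun m => (Gnkm n (N + 1) m).copyCount (pathGraph (2 * (N + 1)))) :=
      Finset.le_sup (f := fun m => (Gnkm n (N + 1) m).copyCount (pathGraph (2 * (N + 1))))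
        (Finset.mem_range.mpr (by omega))
    omega

end P490135
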